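import Mathlib
import Pool.Agent.NIPFields.LZ.Semi2

set_option autoImplicit false

/-!
# Lemma J for a group which contains the powers
-/

namespace Pool.Agent.NIPFields.LV

open FirstOrder FirstOrder.Language FirstOrder.Ring Set IsLocalRing
open Pool.Agent.NIPFields.FI Pool.Agent.NIPFields.LG

universe u v

/-- `TL` for a set `H` in place of the powers. -/
def TLS (F : Type*) [Field F] (H : Set F) : Prop :=
  ∀ A : Finset F, ∃ δ : F, δ ≠ 0 ∧ ∀ a ∈ A, 1 + a * δ ∈ H

/-- The number of traces of the relation `1 + x y ∈ H` on `m` elements is at most `f m`. -/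
def TrLe (F : Type*) [Field F] (H : Set F) (f : ℕ → ℕ) : Prop :=
  ∀ (m : ℕ) (b : Fin m → F),
    {J : Finset (Fin m) | ∃ x : F, ∀ j, (1 + b j * x ∈ H ↔ j ∈ J)}.ncard ≤ f m

section

variable {K k : Type*} [Field K] [Field k] [Algebra K k] {ℓ : ℕ} {D : LD K k ℓ} {G : Finset k}
  {P : Ideal (D.E G)} {F' : Finset K} {e : D.E G}

/-- The element `1 + (v - 1) e`. -/
def bb (e v : D.E G) : D.E G := 1 + (v - 1) * e

theorem res_e (J : JData D G P F' e) [P.IsPrime] : residue (locS (D.E G) P) (toLocS e) = 1 := by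
  rw [← sub_eq_zero, ← map_one (residue (locS (D.E G) P)), ← map_sub,
    ← map_one (toLocS (E := D.E G) (P := P)), ← map_sub]
  exact residue_toLocS.2 J.e1

theorem res_bb (J : JData D G P F' e) [P.IsPrime] (v : D.E G) :
    residue (locS (D.E G) P) (toLocS (bb e v)) = residue (locS (D.E G) P) (toLocS v) := by
  unfold bb
  simp only [map_add, map_mul, map_sub, map_one, res_e J]
  ring

/-- multiplicativity modulo `I G` -/
theorem bb_mul (J : JData D G P F' e) (v w : D.E G) :
    ((bb e v * bb e w - bb e (v * w) : D.E G) : k) ∈ D.I G := by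
  have h1 : bb e v * bb e w - bb e (v * w) = ((v - 1) * (w - 1) * (e - 1)) * e := by
    unfold bb; ring
  rw [h1]
  exact (J.iff _).1 (P.mul_mem_left _ J.e1)

theorem bb_congr (J : JData D G P F' e) {v w : D.E G} (h : v - w ∈ P) :
    ((bb e v - bb e w : D.E G) : k) ∈ D.I G := by
  have h1 : bb e v - bb e w = (v - w) * e := by
    unfold bb; ring
  rw [h1]
  exact (J.iff _).1 h

theorem I_mul (x : D.E G) {y : D.E G} (hy : (y : k) ∈ D.I G) : ((x * y : D.E G) : k) ∈ D.I G :=
  x.2 _ hy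

theorem I_add {x y : D.E G} (hx : (x : k) ∈ D.I G) (hy : (y : k) ∈ D.I G) :
    ((x + y : D.E G) : k) ∈ D.I G := (D.I G).add_mem hx hy

theorem I_neg {x : D.E G} (hx : (x : k) ∈ D.I G) : ((-x : D.E G) : k) ∈ D.I G :=
  (D.I G).neg_mem hx

/-- `bb v` is a unit of `E` for `v ∉ P`. -/
theorem bb_unit (J : JData D G P F' e) {v : D.E G} (hv : v ∉ P) :
    ((bb e v : D.E G) : k) ≠ 0 ∧ ((bb e v : D.E G) : k)⁻¹ ∈ D.E G := by
  obtain ⟨c, i, hi, hci⟩ := J.max.exists_inv hv
  have h5 : ((bb e c * bb e v - 1 : D.E G) : k) ∈ D.I G := by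
    have h1 := bb_mul J c v
    have h2 : ((bb e (c * v) - bb e 1 : D.E G) : k) ∈ D.I G := by
      refine bb_congr J ?_
      have h3 : c * v - 1 = -i := by linear_combination hci
      rw [h3]
      exact P.neg_mem hi
    have h4 := I_add h1 h2
    have h5 : bb e c * bb e v - bb e (c * v) + (bb e (c * v) - bb e 1) =
        bb e c * bb e v - 1 := by
      unfold bb; ring
    rwa [h5] at h4
  obtain ⟨h7, h8⟩ := J.fam.inv_one_add h5
  have hbc : (1 : k) + ((bb e c * bb e v - 1 : D.E G) : k) = bb e c * bb e v := by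
    push_cast; ring
  rw [hbc] at h7 h8
  refine ⟨right_ne_zero_of_mul h7, ?_⟩
  have h9 : ((bb e v : D.E G) : k)⁻¹ = bb e c * (bb e c * bb e v : k)⁻¹ := by
    have := left_ne_zero_of_mul h7
    have := right_ne_zero_of_mul h7
    field_simp
  rw [h9]
  exact (D.E G).mul_mem (bb e c).2 h8

/-- Membership in the powers modulo `I G`. -/
theorem Pw_congr (J : JData D G P F' e) {b b' : D.E G} (hb : (b : k) ≠ 0)
    (hb' : (b : k)⁻¹ ∈ D.E G) (hi : ((b' - b : D.E G) : k) ∈ D.I G) (h : (b : k) ∈ Pw k ℓ) :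
    (b' : k) ∈ Pw k ℓ := by
  have h1 := D.I_le_J J.fam.one (hb' _ hi)
  have h2 := one_add_mem h1
  have h3 : (b' : k) = b * (1 + (b : k)⁻¹ * ((b' - b : D.E G) : k)) := by
    push_cast
    field_simp
    ring
  rw [h3]
  exact Pw_mul h h2

/-- The set of all `u ≠ 0` with `bb u` a power. -/
def GS (ℓ : ℕ) (P : Ideal (D.E G)) [P.IsPrime] (e : D.E G) :
    Set (ResidueField (locS (D.E G) P)) :=
  {u | u ≠ 0 ∧ ∀ v : D.E G, residue (locS (D.E G) P) (toLocS v) = u →
    ((bb e v : D.E G) : k) ∈ Pw k ℓ}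

theorem sub_mem_of_res [P.IsPrime] {v w : D.E G}
    (h : residue (locS (D.E G) P) (toLocS v) = residue (locS (D.E G) P) (toLocS w)) :
    v - w ∈ P := by
  rw [← residue_toLocS, map_sub, map_sub, h, sub_self]

theorem mem_GS_iff (J : JData D G P F' e) [P.IsPrime] {v : D.E G} (hv : v ∉ P) :
    residue (locS (D.E G) P) (toLocS v) ∈ GS ℓ P e ↔ ((bb e v : D.E G) : k) ∈ Pw k ℓ := by
  constructor
  · intro h
    exact h.2 v rfl
  · intro h
    refine ⟨fun h0 => hv (residue_toLocS.1 h0), fun w hw => ?_⟩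
    obtain ⟨h1, h2⟩ := bb_unit J hv
    exact Pw_congr J h1 h2 (bb_congr J (sub_mem_of_res hw)) h

theorem exists_lift (J : JData D G P F' e) [P.IsPrime] (u : ResidueField (locS (D.E G) P)) :
    ∃ v : D.E G, residue (locS (D.E G) P) (toLocS v) = u ∧ (u ≠ 0 → v ∉ P) := by
  obtain ⟨v, hv⟩ := locS_residue_surjective J.max u
  refine ⟨v, hv, fun hu hP => hu ?_⟩
  rw [← hv]
  exact residue_toLocS.2 hP

theorem GS_ne {J : JData D G P F' e} [P.IsPrime] {u : ResidueField (locS (D.E G) P)}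
    (h : u ∈ GS ℓ P e) : u ≠ 0 := h.1

theorem GS_mul (J : JData D G P F' e) [P.IsPrime] {u u' : ResidueField (locS (D.E G) P)}
    (h : u ∈ GS ℓ P e) (h' : u' ∈ GS ℓ P e) : u * u' ∈ GS ℓ P e := by
  obtain ⟨v, hv, hvP⟩ := exists_lift J u
  obtain ⟨v', hv', hvP'⟩ := exists_lift J u'
  have h1 := hvP h.1
  have h1' := hvP' h'.1
  have h2 : v * v' ∉ P := fun hm => (J.max.isPrime.mem_or_mem hm).elim h1 h1'
  have h3 : residue (locS (D.E G) P) (toLocS (v * v')) = u * u' := by
    rw [map_mul, map_mul, hv, hv']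
  rw [← h3, mem_GS_iff J h2]
  obtain ⟨a1, a2⟩ := bb_unit J h1
  obtain ⟨b1, b2⟩ := bb_unit J h1'
  have h4 : ((bb e v * bb e v' : D.E G) : k) ∈ Pw k ℓ := by
    rw [Subring.coe_mul]
    exact Pw_mul (h.2 v hv) (h'.2 v' hv')
  refine Pw_congr J (b := bb e v * bb e v') ?_ ?_ ?_ h4
  · rw [Subring.coe_mul]
    exact mul_ne_zero a1 b1
  · rw [Subring.coe_mul, mul_inv]
    exact (D.E G).mul_mem a2 b2
  · have := I_neg (bb_mul J v v')
    rwa [neg_sub] at this

theorem GS_inv (J : JData D G P F' e) [P.IsPrime] {u : ResidueField (locS (D.E G) P)}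
    (h : u ∈ GS ℓ P e) : u⁻¹ ∈ GS ℓ P e := by
  obtain ⟨v, hv, hvP⟩ := exists_lift J u
  obtain ⟨w, hw, hwP⟩ := exists_lift J u⁻¹
  have h1 := hvP h.1
  have h2 := hwP (inv_ne_zero h.1)
  rw [← hw, mem_GS_iff J h2]
  obtain ⟨a1, a2⟩ := bb_unit J h1
  have h3 : ((bb e w * bb e v - 1 : D.E G) : k) ∈ D.I G := by
    have e1 := bb_mul J w v
    have e2 : ((bb e (w * v) - bb e 1 : D.E G) : k) ∈ D.I G := by
      refine bb_congr J (sub_mem_of_res (P := P) ?_)
      rw [map_mul, map_mul, hw, hv, inv_mul_cancel₀ h.1, map_one, map_one]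
    have e3 := I_add e1 e2
    have e4 : bb e w * bb e v - bb e (w * v) + (bb e (w * v) - bb e 1) =
        bb e w * bb e v - 1 := by
      unfold bb; ring
    rwa [e4] at e3
  have h4 := one_add_mem (D.I_le_J J.fam.one h3)
  have h5 : ((bb e w : D.E G) : k) =
      (1 + ((bb e w * bb e v - 1 : D.E G) : k)) * ((bb e v : D.E G) : k)⁻¹ := by
    push_cast
    field_simp
    ring
  rw [h5]
  exact Pw_mul h4 (Pw_inv (h.2 v hv))

theorem GS_pow (J : JData D G P F' e) [P.IsPrime] {u : ResidueField (locS (D.E G) P)}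
    (hu : u ≠ 0) : u ^ ℓ ∈ GS ℓ P e := by
  obtain ⟨v, hv, hvP⟩ := exists_lift J u
  have h1 := hvP hu
  have h2 : v ^ ℓ ∉ P := fun h => h1 (J.max.isPrime.mem_of_pow_mem _ h)
  have h3 : residue (locS (D.E G) P) (toLocS (v ^ ℓ)) = u ^ ℓ := by
    rw [map_pow, map_pow, hv]
  rw [← h3, mem_GS_iff J h2]
  obtain ⟨a1, a2⟩ := bb_unit J h1
  refine Pw_congr J (b := bb e v ^ ℓ) ?_ ?_ ?_ ?_
  · rw [Subring.coe_pow]
    exact pow_ne_zero _ a1
  · rw [Subring.coe_pow, ← inv_pow]
    exact (D.E G).pow_mem a2 ℓ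
  · have key : ∀ n : ℕ, ((bb e (v ^ n) - bb e v ^ n : D.E G) : k) ∈ D.I G := by
      intro n
      induction n with
      | zero =>
        have : bb e (v ^ 0) - bb e v ^ 0 = 0 := by unfold bb; ring
        rw [this]
        exact (D.I G).zero_mem
      | succ n ih =>
        have e1 := I_neg (bb_mul J (v ^ n) v)
        have e2 := I_mul (bb e v) ih
        have e3 := I_add e1 e2
        have e4 : -(bb e (v ^ n) * bb e v - bb e (v ^ n * v)) +
            bb e v * (bb e (v ^ n) - bb e v ^ n) = bb e (v ^ (n + 1)) - bb e v ^ (n + 1) := by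
          rw [pow_succ v, pow_succ (bb e v)]
          ring
        rwa [e4] at e3
    exact key ℓ
  · rw [Subring.coe_pow]
    exact ⟨_, a1, rfl⟩

/-- The residue field violates `TL` for the group `GS`. -/
theorem not_TLS (J : JData D G P F' e) [P.IsPrime] :
    ¬ TLS (ResidueField (locS (D.E G) P)) (GS ℓ P e) := by
  classical
  intro hTL
  let r : K × k → ResidueField (locS (D.E G) P) := fun x =>
    if h : algebraMap K k x.1 * x.2⁻¹ ∈ D.E G then residue _ (toLocS ⟨_, h⟩) else 0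
  obtain ⟨δ, hδ, hδA⟩ := hTL ((F' ×ˢ G).image r)
  obtain ⟨d, rfl⟩ := locS_residue_surjective J.max δ
  have hdP : d ∉ P := fun h => hδ (residue_toLocS.2 h)
  apply hdP
  have hDD : ((d * e : D.E G) : k) ∈ DDs K ℓ G F' := by
    intro g hg f hf
    have h2 : algebraMap K k f * g⁻¹ ∈ D.E G :=
      (D.E G).mul_mem (D.algebraMap_mem G f) (J.fam.inv_mem hg)
    have h3 : r (f, g) = residue _ (toLocS ⟨_, h2⟩) := dif_pos h2
    have h4 := hδA (r (f, g)) (Finset.mem_image_of_mem _ (Finset.mem_product.2 ⟨hf, hg⟩))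
    have h5 : 1 + r (f, g) * residue (locS (D.E G) P) (toLocS d) =
        residue (locS (D.E G) P) (toLocS (1 + ⟨_, h2⟩ * d)) := by
      rw [h3, map_add, map_add, map_mul, map_mul, map_one, map_one]
    rw [h5] at h4
    have h6 := h4.2 _ rfl
    have h7 : ((bb e (1 + ⟨_, h2⟩ * d) : D.E G) : k) =
        1 + algebraMap K k f * (((d * e : D.E G) : k) * g⁻¹) := by
      unfold bb
      push_cast
      ring
    rw [h7] at h6
    exact h6
  have := J.DD_P hDD
  exact (J.max.isPrime.mem_or_mem this).resolve_right J.e_notMem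

/-- The number of traces on the residue field. -/
theorem trLe_GS (J : JData D G P F' e) [P.IsPrime] {f : ℕ → ℕ} (h : TrLe k (Pw k ℓ) f) :
    TrLe (ResidueField (locS (D.E G) P)) (GS ℓ P e) fun m => f m + m := by
  classical
  intro m b
  choose b' hb' _ using fun j => exists_lift J (b j)
  let c : Fin m → k := fun j => ((b' j * e : D.E G) : k)
  let 𝓔 : Set (Finset (Fin m)) := Set.range fun i : Fin m =>
    Finset.univ.filter fun j => 1 + b j * (-(b i)⁻¹) ∈ GS ℓ P e
  have hsub : {J' : Finset (Fin m) | ∃ x : ResidueField (locS (D.E G) P),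
      ∀ j, (1 + b j * x ∈ GS ℓ P e ↔ j ∈ J')} ⊆
      {J' : Finset (Fin m) | ∃ x : k, ∀ j, (1 + c j * x ∈ Pw k ℓ ↔ j ∈ J')} ∪ 𝓔 := by
    rintro J' ⟨x, hx⟩
    by_cases h0 : ∃ i, 1 + b i * x = 0
    · right
      obtain ⟨i, hi⟩ := h0
      refine ⟨i, ?_⟩
      have hbi : b i ≠ 0 := by
        intro h1
        rw [h1, zero_mul, add_zero] at hi
        exact one_ne_zero hi
      have hxi : x = -(b i)⁻¹ := by
        field_simp
        linear_combination hi
      ext j
      simp only [Finset.mem_filter, Finset.mem_univ, true_and]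
      rw [← hxi]
      exact hx j
    · left
      push Not at h0
      obtain ⟨x', hx', _⟩ := exists_lift J x
      refine ⟨x', fun j => ?_⟩
      rw [← hx j]
      have h1 : residue (locS (D.E G) P) (toLocS (1 + b' j * x')) = 1 + b j * x := by
        rw [map_add, map_add, map_mul, map_mul, map_one, map_one, hb', hx']
      have h2 : 1 + b' j * x' ∉ P := by
        intro h3
        apply h0 j
        rw [← h1]
        exact residue_toLocS.2 h3
      rw [← h1, mem_GS_iff J h2]
      have h3 : ((bb e (1 + b' j * x') : D.E G) : k) = 1 + c j * x' := by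
        unfold bb
        simp only [c]
        push_cast
        ring
      rw [h3]
  refine (Set.ncard_le_ncard hsub (Set.toFinite _)).trans ((Set.ncard_union_le _ _).trans ?_)
  refine Nat.add_le_add (h m c) ?_
  have h1 : 𝓔 = (fun i : Fin m => Finset.univ.filter fun j =>
      1 + b j * (-(b i)⁻¹) ∈ GS ℓ P e) '' Set.univ := Set.image_univ.symm
  rw [h1]
  refine (Set.ncard_image_le (Set.toFinite _)).trans ?_
  rw [Set.ncard_univ, Nat.card_eq_fintype_card, Fintype.card_fin]

end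

end Pool.Agent.NIPFields.LV
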