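import Mathlib
import Pool.Agent.NIPFields.LV.GPrime
import Pool.Agent.NIPFields.LU.Final

set_option autoImplicit false

/-!
# Definable valuations from a small shatter function
-/

namespace Pool.Agent.NIPFields.LV

open FirstOrder FirstOrder.Language FirstOrder.Ring Set Filter IsLocalRing
open Pool.Agent.NIPFields.FI Pool.Agent.NIPFields.LG

universe u v

attribute [local instance] germAlg

/-- The number of traces in the ultrapower. -/
theorem trLe_germ {L : Type u} [Field L] {ℓ : ℕ} {f : ℕ → ℕ} (h : TrLe L (Pw L ℓ) f) :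
    TrLe (Germ (UF L : Filter (Finset L)) L) (Pw (Germ (UF L : Filter (Finset L)) L) ℓ) f := by
  classical
  intro m b
  choose b' hb' using fun j => Quotient.exists_rep (b j)
  have hb : ∀ j, b j = ↑(b' j) := fun j => (hb' j).symm
  set 𝓣 : Set (Finset (Fin m)) := {J | ∃ x : Germ (UF L : Filter (Finset L)) L,
    ∀ j, (1 + b j * x ∈ Pw (Germ (UF L : Filter (Finset L)) L) ℓ ↔ j ∈ J)} with h𝓣
  have h1 : ∀ J : 𝓣, ∃ x : Finset L → L, ∀ᶠ t in (UF L : Filter (Finset L)),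
      ∀ j, (1 + b' j t * x t ∈ Pw L ℓ ↔ j ∈ J.1) := by
    rintro ⟨J, x, hx⟩
    obtain ⟨x', hx'⟩ := Quotient.exists_rep x
    have hxe : x = ↑x' := hx'.symm
    refine ⟨x', ?_⟩
    rw [eventually_all]
    intro j
    have h2 : (1 : Germ (UF L : Filter (Finset L)) L) + b j * x = ↑(1 + b' j * x') := by
      rw [hb, hxe, Germ.coe_add, Germ.coe_mul, Germ.coe_one]
    have h3 := hx j
    rw [h2, mem_Pw_germ] at h3
    by_cases hj : j ∈ J
    · filter_upwards [h3.2 hj] with t ht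
      exact ⟨fun _ => hj, fun _ => ht⟩
    · have h4 : ¬ ∀ᶠ t in (UF L : Filter (Finset L)), (1 + b' j * x') t ∈ Pw L ℓ :=
        fun h5 => hj (h3.1 h5)
      rw [← Ultrafilter.eventually_not] at h4
      filter_upwards [h4] with t ht
      exact ⟨fun h6 => absurd h6 ht, fun h6 => absurd h6 hj⟩
  choose x hx using h1
  have h2 : ∀ᶠ t in (UF L : Filter (Finset L)), ∀ J : 𝓣,
      ∀ j, (1 + b' j t * x J t ∈ Pw L ℓ ↔ j ∈ J.1) := by
    rw [eventually_all]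
    exact hx
  obtain ⟨t, ht⟩ := h2.exists
  refine (Set.ncard_le_ncard ?_ (Set.toFinite _)).trans (h m fun j => b' j t)
  intro J hJ
  exact ⟨x ⟨J, hJ⟩ t, ht ⟨J, hJ⟩⟩

/-- The combinatorial statement (folder `PQ`). -/
def PQStatement (ℓ : ℕ) (good : (ℕ → ℕ) → Prop) : Prop :=
  ∀ (F : Type u) [Field F] [Infinite F] (_ : (ℓ : F) ≠ 0) (H : Set F) (f : ℕ → ℕ),
    (∀ x ∈ H, x ≠ 0) → (∀ x ∈ H, ∀ y ∈ H, x * y ∈ H) → (∀ x ∈ H, x⁻¹ ∈ H) →
    (∀ x : F, x ≠ 0 → x ^ ℓ ∈ H) → good f → TrLe F H f → TLS F H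

theorem noJ_of_pq {ℓ : ℕ} {good : (ℕ → ℕ) → Prop} (hpq : PQStatement.{u} ℓ good)
    (hgood : ∀ f, good f → good fun m => f m + m) {L : Type u} [Field L] [Infinite L]
    (hℓ : (ℓ : L) ≠ 0) {f : ℕ → ℕ} (hf : good f) (hL : TrLe L (Pw L ℓ) f)
    (D : LD L (Germ (UF L : Filter (Finset L)) L) ℓ) : NoJ D := by
  intro G P F' e J
  have : P.IsPrime := J.max.isPrime
  let φ : L →+* ResidueField (locS (D.E G) P) := ((residue (locS (D.E G) P)).comp toLocS).comp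
    ((algebraMap L (Germ (UF L : Filter (Finset L)) L)).codRestrict (D.E G)
      (D.algebraMap_mem G))
  have hinf : Infinite (ResidueField (locS (D.E G) P)) := Infinite.of_injective φ φ.injective
  have hℓF : (ℓ : ResidueField (locS (D.E G) P)) ≠ 0 := by
    rw [← map_natCast φ]
    exact (map_ne_zero φ).2 hℓ
  exact not_TLS J (hpq _ hℓF (GS ℓ P e) _ (fun x hx => hx.1) (fun x hx y hy => GS_mul J hx hy)
    (fun x hx => GS_inv J hx) (fun x hx => GS_pow J hx) (hgood f hf) (trLe_GS J (trLe_germ hL)))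

theorem TL_of_pq {ℓ : ℕ} {good : (ℕ → ℕ) → Prop} (hpq : PQStatement.{u} ℓ good)
    {L : Type u} [Field L] [Infinite L] (hℓ : (ℓ : L) ≠ 0) {f : ℕ → ℕ} (hf : good f)
    (hL : TrLe L (Pw L ℓ) f) : TL L ℓ :=
  hpq L hℓ (Pw L ℓ) f (fun _ hx => Pw_ne hx) (fun _ hx _ hy => Pw_mul hx hy)
    (fun _ hx => Pw_inv hx) (fun x hx => ⟨x, hx, rfl⟩) hf hL

/-- **Theorem V.** -/
theorem exists_definable_of_pq {ℓ : ℕ} (hℓp : ℓ.Prime) {good : (ℕ → ℕ) → Prop}
    (hpq : PQStatement.{u} ℓ good) (hgood : ∀ f, good f → good fun m => f m + m)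
    {L : Type u} [Field L] [Infinite L] [CompatibleRing L] (hL : NIP L) (hℓ : (ℓ : L) ≠ 0)
    {ζ : L} (hζ : IsPrimitiveRoot ζ ℓ) (hi : ∃ i : L, i ^ 2 = -1) (ha : ∃ a : L, ∀ y, a ≠ y ^ ℓ)
    {f : ℕ → ℕ} (hf : good f) (hTr : TrLe L (Pw L ℓ) f) :
    ∃ O : ValuationSubring L, O ≠ ⊤ ∧ (univ : Set L).Definable₁ Language.ring {x | x ∈ O} :=
  LU.exists_definable_of_noJ hL hℓp hℓ hζ hi (TL_of_pq hpq hℓ hf hTr)
    (fun D => noJ_of_pq hpq hgood hℓ hf hTr D) ha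

end Pool.Agent.NIPFields.LV
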