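import Mathlib
import Pool.Agent.NIPFields.LV.VThm

set_option autoImplicit false

/-!
# Descent to the base field
-/

namespace Pool.Agent.NIPFields.LV

open FirstOrder FirstOrder.Language FirstOrder.Ring Set Filter IsLocalRing
open Pool.Agent.NIPFields.FI Pool.Agent.NIPFields.LG

universe u

/-- The condition on the shatter function: `f m = o(m ^ r)`. -/
def Small (r : ℕ) (f : ℕ → ℕ) : Prop :=
  Tendsto (fun m : ℕ => (f m : ℝ) / (m : ℝ) ^ r) atTop (nhds 0)

theorem Small.add {r : ℕ} (hr : 2 ≤ r) {f : ℕ → ℕ} (hf : Small r f) :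
    Small r fun m => f m + m := by
  unfold Small at *
  have h1 : Tendsto (fun m : ℕ => (m : ℝ) / (m : ℝ) ^ r) atTop (nhds 0) := by
    obtain ⟨s, rfl⟩ := Nat.exists_eq_add_of_le hr
    have h2 : Tendsto (fun m : ℕ => (m : ℝ) ^ (1 + s)) atTop atTop :=
      (tendsto_pow_atTop (by omega)).comp tendsto_natCast_atTop_atTop
    have h3 : Tendsto (fun m : ℕ => ((m : ℝ) ^ (1 + s))⁻¹) atTop (nhds 0) :=
      tendsto_inv_atTop_zero.comp h2
    refine h3.congr' ?_
    filter_upwards [eventually_gt_atTop 0] with m hm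
    have hm' : (m : ℝ) ≠ 0 := by exact_mod_cast hm.ne'
    have h4 : (m : ℝ) ^ (2 + s) = m * (m : ℝ) ^ (1 + s) := by
      rw [show 2 + s = (1 + s) + 1 by ring, pow_succ]
      ring
    rw [h4]
    field_simp
  have h2 := hf.add h1
  rw [add_zero] at h2
  refine h2.congr fun m => ?_
  push_cast
  rw [add_div]

/-- **Theorem V** for the field `K`, modulo the combinatorial statement. -/
theorem theoremV_of_pq (hpq : PQStatement.{u} 2 (Small 3)) {K : Type u} [Field K] [Infinite K]
    [CompatibleRing K] (hK : NIP K) (h2 : (2 : K) ≠ 0) {L : Type u} [Field L] [Algebra K L]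
    [FiniteDimensional K L] (hi : ∃ i : L, i ^ 2 = -1) (ha : ∃ a : L, ∀ y, a ≠ y ^ 2)
    {f : ℕ → ℕ} (hf : Small 3 f) (hTr : TrLe L (Pw L 2) f) :
    ∃ O : ValuationSubring K, O ≠ ⊤ ∧ (univ : Set K).Definable₁ Language.ring {x | x ∈ O} ∧
      ∀ p : ℕ, p.Prime → CharP K p → HenselianLocalRing O := by
  let _ : CompatibleRing L := compatibleRingOfRing L
  have hL : NIP L := hK.finite (Module.finBasis K L)
  have hinf : Infinite L := Infinite.of_injective _ (algebraMap K L).injective
  have h2L : ((2 : ℕ) : L) ≠ 0 := by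
    have h3 := (map_ne_zero (algebraMap K L)).2 h2
    rw [map_ofNat] at h3
    exact_mod_cast h3
  have hprim : IsPrimitiveRoot (-1 : L) 2 := by
    have hne : (-1 : L) ≠ 1 := by
      intro h
      apply h2L
      push_cast
      linear_combination -h
    have hord : orderOf (-1 : L) = 2 := orderOf_eq_prime (by norm_num) hne
    rw [← hord]
    exact IsPrimitiveRoot.orderOf _
  obtain ⟨O', h1, hd⟩ := exists_definable_of_pq Nat.prime_two hpq
    (fun f hf => hf.add (by norm_num)) hL h2L hprim hi ha hf hTr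
  obtain ⟨O, hO1, hO2⟩ := LC.exists_definable_restrict (K := K) h1 hd
  refine ⟨O, hO1, hO2, fun p hp hch => ?_⟩
  have : Fact p.Prime := ⟨hp⟩
  exact hK.henselian_of_definable p hO1 hO2

end Pool.Agent.NIPFields.LV
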