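import Mathlib
import Pool.Agent.NIPFields.PQ.Main

set_option autoImplicit false

/-!
# NIP fields in which the translates of the squares have a small shatter function
-/

namespace Pool.Agent.NIPFields.LV

open FirstOrder FirstOrder.Language FirstOrder.Ring Set Filter IsLocalRing
open Pool.Agent.NIPFields.FI Pool.Agent.NIPFields.LG

universe u

/-- **Theorem V.** -/
theorem theoremV {K : Type u} [Field K] [Infinite K] [CompatibleRing K] (hK : NIP K)
    (h2 : (2 : K) ≠ 0) {L : Type u} [Field L] [Algebra K L] [FiniteDimensional K L]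
    (hi : ∃ i : L, i ^ 2 = -1) (ha : ∃ a : L, ∀ y, a ≠ y ^ 2) {f : ℕ → ℕ}
    (hf : Tendsto (fun m : ℕ => (f m : ℝ) / (m : ℝ) ^ 3) atTop (nhds 0))
    (hTr : ∀ (m : ℕ) (b : Fin m → L),
      {J : Finset (Fin m) | ∃ x : L, ∀ j, ((∃ y, y ≠ 0 ∧ 1 + b j * x = y ^ 2) ↔ j ∈ J)}.ncard
        ≤ f m) :
    ∃ O : ValuationSubring K, O ≠ ⊤ ∧ (univ : Set K).Definable₁ Language.ring {x | x ∈ O} ∧
      ∀ p : ℕ, p.Prime → CharP K p → HenselianLocalRing O :=
  theoremV_of_pq PQ.pqStatement_two hK h2 hi ha hf hTr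

end Pool.Agent.NIPFields.LV
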