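import Mathlib
import Pool.Agent.NIPFields.LV.TowerP
import Pool.Agent.NIPFields.LV.Final
import Pool.Agent.NIPFields.PQ.CharP

set_option autoImplicit false

/-!
# NIP fields of positive characteristic in which the translates of the `ℓ`-th powers have a small
shatter function
-/

namespace Pool.Agent.NIPFields.LV

open FirstOrder FirstOrder.Language FirstOrder.Ring Set Filter IsLocalRing
open Pool.Agent.NIPFields.FI Pool.Agent.NIPFields.LG

universe u

attribute [local instance] germAlg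

/-- **Theorem V in positive characteristic.** -/
theorem theoremVP {p : ℕ} [hp : Fact p.Prime] {K : Type u} [Field K] [Infinite K]
    [CompatibleRing K] (hK : NIP K) [CharP K p] {L : Type u} [Field L] [Algebra K L]
    [FiniteDimensional K L] {ℓ : ℕ} (hℓ : ℓ.Prime) (hℓp : ℓ ≠ p) (ha : ∃ a : L, ∀ y, a ≠ y ^ ℓ)
    {f : ℕ → ℕ} (hf : Small 2 f ∨ ℓ = 2 ∧ Small 3 f) (hTr : TrLe L (Pw L ℓ) f) :
    ∃ O : ValuationSubring K, O ≠ ⊤ ∧ HenselianLocalRing O ∧
      (univ : Set K).Definable₁ Language.ring {x | x ∈ O} := by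
  let _ : CompatibleRing L := compatibleRingOfRing L
  have hL : NIP L := hK.finite (Module.finBasis K L)
  have hinf : Infinite L := Infinite.of_injective _ (algebraMap K L).injective
  have hchL : CharP L p := charP_of_injective_algebraMap (algebraMap K L).injective p
  -- the combinatorial statement
  have hpq : ∀ (F : Type u) [Field F] [Infinite F] [CharP F p] (H : Set F) (g : ℕ → ℕ),
      (∀ x ∈ H, x ≠ 0) → (∀ x ∈ H, ∀ y ∈ H, x * y ∈ H) → (∀ x ∈ H, x⁻¹ ∈ H) →
      (∀ x : F, x ≠ 0 → x ^ ℓ ∈ H) → (Small 2 g ∨ ℓ = 2 ∧ Small 3 g) → TrLe F H g → TLS F H := by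
    intro F _ _ _ H g h0 hmul hinv hpow hg htr
    rcases hg with hg | ⟨rfl, hg⟩
    · intro A
      exact PQ.exists_common_charP (p := p) hℓ hℓp H h0 hmul hinv hpow g hg htr A
    · refine PQ.pqStatement_two F ?_ H g h0 hmul hinv hpow hg htr
      intro h
      exact hℓp ((Nat.prime_dvd_prime_iff_eq hp.out hℓ).1
        ((CharP.cast_eq_zero_iff F p 2).1 h)).symm
  have hf' : Small 2 (fun m => f m + m) ∨ ℓ = 2 ∧ Small 3 (fun m => f m + m) := by
    rcases hf with h | ⟨h, h'⟩
    · exact Or.inl (h.add le_rfl)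
    · exact Or.inr ⟨h, h'.add (by norm_num)⟩
  have hTL : TL L ℓ := hpq L (Pw L ℓ) f (fun _ hx => Pw_ne hx) (fun _ hx _ hy => Pw_mul hx hy)
    (fun _ hx => Pw_inv hx) (fun x hx => ⟨x, hx, rfl⟩) hf hTr
  let E := Germ (UF L : Filter (Finset L)) L
  let _ : CompatibleRing E := germCompat (UF L) L
  have hE : NIP E := NIP.germ hL
  have D : LD L E ℓ := ld_germ hL hℓ.ne_zero hTL (by
    obtain ⟨a, ha⟩ := ha
    refine ⟨a, ?_, ?_⟩
    · rintro rfl
      exact ha 0 (zero_pow hℓ.ne_zero).symm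
    · rintro ⟨b, _, hb⟩
      exact ha b hb)
  obtain ⟨O₁, h₁, hd₁⟩ := D.exists_definable_of_val hE hℓ hℓp fun y => by
    by_contra hcon
    rw [not_or] at hcon
    obtain ⟨G, hloc, h1, h0, hn⟩ := exists_tower_TLS hE hℓ hℓp D hcon.1 hcon.2
    let φ : L →+* ResidueField (D.E G) := (residue (D.E G)).comp
      ((algebraMap L E).codRestrict (D.E G) (D.algebraMap_mem G))
    have hinf' : Infinite (ResidueField (D.E G)) := Infinite.of_injective φ φ.injective
    have hch' : CharP (ResidueField (D.E G)) p := charP_of_injective_ringHom φ.injective p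
    exact hn (hpq _ (HS E ℓ (D.E G)) _ (fun x hx => hx.1)
      (fun x hx y hy => HS_mul hE hℓ hℓp D h1 h0 hx hy) (fun x hx => HS_inv hE hℓ hℓp D h1 h0 hx)
      (fun x hx => HS_pow hE hℓ hℓp D h1 h0 hx) hf' (trLe_HS hE hℓ hℓp D h1 h0 (trLe_germ hTr)))
  obtain ⟨O', hO'1, hO'2⟩ := exists_definable_of_germ O₁ h₁ hd₁
  obtain ⟨O, hO1, hO2⟩ := LC.exists_definable_restrict (K := K) hO'1 hO'2
  exact ⟨O, hO1, hK.henselian_of_definable p hO1 hO2, hO2⟩

end Pool.Agent.NIPFields.LV
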